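import Pool.Agent.Helper59.EX.BlockB
import Pool.Agent.Helper81.EX.Window
import Pool.Agent.Helper45.EX.WindowLower

/-!
# EX-5: the block recursion and the block estimates

`SOv_block`, `SOK_block`, `block_bad` are in `BlockA`.
-/

set_option autoImplicit false

namespace Pool.Agent.Helper59.EX

open Pool.Agent.Helper36.DC Pool.Agent.Helper47.EX Finset

theorem block_upper (x : ℝ) (hx : 1 ≤ x) (hx1 : x ≤ 13 / 10) (g h a b m w : ℕ)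
    (h1 : 3 ^ (h + b) ≤ 2 ^ (g + a)) (B : ℝ) (hB0 : 0 ≤ B)
    (hB : ∀ Y Z, SOv x g h a b Y Z ≤ B) (Y Z : ℕ) :
    SOv x g h (a + m) (b + w) Y Z ≤
      5 * EE (fun _ => x) (fun _ => x) m w ((3 : ℝ) ^ (h + b) / 2 ^ (g + a))
        * ((1 + x) ^ m * (1 + x⁻¹ + x⁻¹ ^ 2) ^ w / 2 ^ m) * B :=
  block_upper_of Pool.Agent.Helper81.EX.window_upper x hx hx1 g h a b m w h1 B hB0 hB Y Z

theorem block_lower (x : ℝ) (hx : 1 ≤ x) (hx1 : x ≤ 13 / 10) (g h a b m w j w0 L : ℕ) (E0 : ℝ)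
    (h1 : 3 ^ (h + b) ≤ 2 ^ (g + a)) (h2 : 2 ^ (g + a) < 3 ^ (h + b + 1))
    (h3 : 3 ^ (h + b + w) ≤ 2 ^ (g + a + m)) (h4 : 2 ^ (g + a + m) < 3 ^ (h + b + w + 1))
    (hj : j ≤ m) (hw0 : w0 ≤ w) (h5 : 2 ^ j ≤ 3 ^ w0) (h6 : 3 ^ w0 < 3 * 2 ^ j)
    (h7 : 3 ≤ w0) (hm : 6 ≤ m)
    (hT : TT (mix x m j) (mix x w w0) m w j L ((3 : ℝ) ^ (h + b) / 2 ^ (g + a)) ≤ 1 / 280)
    (hE : EE (mix x m j) (mix x w w0) m w ((3 : ℝ) ^ (h + b) / 2 ^ (g + a)) ≤ E0)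
    (hE0 : 1 ≤ E0) (hL : 10000 * E0 ≤ L)
    (B : ℝ) (hB0 : 0 ≤ B)
    (hB : ∀ Y Z, OK (g + a) (h + b) Y Z → B ≤ SOK x g h a b Y Z) (Y Z : ℕ)
    (hOK : OK (g + a + m) (h + b + w) Y Z) :
    (1 / (280 * L)) * ((2 / (1 + x)) ^ j * (3 / (x ^ 2 * (1 + x⁻¹ + x⁻¹ ^ 2))) ^ w0)
        * ((1 + x) ^ m * (1 + x⁻¹ + x⁻¹ ^ 2) ^ w / 2 ^ m) * B
      ≤ SOK x g h (a + m) (b + w) Y Z :=
  block_lower_of Pool.Agent.Helper45.EX.window_lower x hx hx1 g h a b m w j w0 L E0 h1 h2 h3 h4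
    hj hw0 h5 h6 h7 hm hT hE hE0 hL B hB0 hB Y Z hOK

end Pool.Agent.Helper59.EX
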