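import Pool.Agent.Helper47.EX.Defs
import Pool.Agent.Helper36.DC.Digits

/-!
# EX-5, first part: block recursion, the weights, and the bad blocks
-/

set_option autoImplicit false

namespace Pool.Agent.Helper59.EX

open Pool.Agent.Helper36.DC Pool.Agent.Helper47.EX Finset

theorem sum_range_mul_eq (A B : ℕ) (f : ℕ → ℝ) :
    ∑ i ∈ range (A * B), f i = ∑ i ∈ range B, ∑ j ∈ range A, f (A * i + j) := by
  induction B with
  | zero => simp
  | succ B ih =>
    rw [Nat.mul_succ, Finset.sum_range_add, ih, Finset.sum_range_succ]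

theorem block_gen (x : ℝ) (R : ℕ → ℕ → Prop) [∀ y z, Decidable (R y z)] (a b m w Y Z : ℕ) :
    ∑ u ∈ range (2 ^ (a + m)), ∑ v ∈ range (3 ^ (b + w)),
      (if R (2 ^ (a + m) * Y + u) (3 ^ (b + w) * Z + v) then x ^ (s 2 u) / x ^ (s 3 v) else 0) =
    ∑ u ∈ range (2 ^ m), ∑ v ∈ range (3 ^ w), x ^ (s 2 u) / x ^ (s 3 v) *
      ∑ u0 ∈ range (2 ^ a), ∑ v0 ∈ range (3 ^ b),
        (if R (2 ^ a * (2 ^ m * Y + u) + u0) (3 ^ b * (3 ^ w * Z + v) + v0)
          then x ^ (s 2 u0) / x ^ (s 3 v0) else 0) := by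
  rw [pow_add 2 a m, sum_range_mul_eq]
  refine Finset.sum_congr rfl fun u hu => ?_
  have e1 : ∀ u0 : ℕ, ∑ v ∈ range (3 ^ (b + w)),
      (if R (2 ^ a * 2 ^ m * Y + (2 ^ a * u + u0)) (3 ^ (b + w) * Z + v)
        then x ^ (s 2 (2 ^ a * u + u0)) / x ^ (s 3 v) else 0) =
      ∑ v ∈ range (3 ^ w), ∑ v0 ∈ range (3 ^ b),
      (if R (2 ^ a * 2 ^ m * Y + (2 ^ a * u + u0)) (3 ^ (b + w) * Z + (3 ^ b * v + v0))
        then x ^ (s 2 (2 ^ a * u + u0)) / x ^ (s 3 (3 ^ b * v + v0)) else 0) := by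
    intro u0
    conv_lhs => rw [pow_add 3 b w]
    rw [sum_range_mul_eq]
    rw [← pow_add 3 b w]
  rw [Finset.sum_congr rfl fun u0 _ => e1 u0, Finset.sum_comm]
  refine Finset.sum_congr rfl fun v hv => ?_
  rw [Finset.mul_sum]
  refine Finset.sum_congr rfl fun u0 hu0 => ?_
  rw [Finset.mul_sum]
  refine Finset.sum_congr rfl fun v0 hv0 => ?_
  have h1 : 2 ^ a * 2 ^ m * Y + (2 ^ a * u + u0) = 2 ^ a * (2 ^ m * Y + u) + u0 := by ring
  have h2 : 3 ^ (b + w) * Z + (3 ^ b * v + v0) = 3 ^ b * (3 ^ w * Z + v) + v0 := by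
    rw [pow_add]; ring
  rw [h1, h2]
  split_ifs with h
  · rw [s_concat 2 a u u0 le_rfl (Finset.mem_range.mp hu0),
      s_concat 3 b v v0 (by norm_num) (Finset.mem_range.mp hv0), pow_add, pow_add,
      mul_div_mul_comm]
  · rw [mul_zero]

theorem SOv_block (x : ℝ) (g h a b m w Y Z : ℕ) :
    SOv x g h (a + m) (b + w) Y Z = ∑ u ∈ range (2 ^ m), ∑ v ∈ range (3 ^ w),
      x ^ (s 2 u) / x ^ (s 3 v) * SOv x g h a b (2 ^ m * Y + u) (3 ^ w * Z + v) :=
  block_gen x (Ov g h) a b m w Y Z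

theorem SOK_block (x : ℝ) (g h a b m w Y Z : ℕ) :
    SOK x g h (a + m) (b + w) Y Z = ∑ u ∈ range (2 ^ m), ∑ v ∈ range (3 ^ w),
      x ^ (s 2 u) / x ^ (s 3 v) * SOK x g h a b (2 ^ m * Y + u) (3 ^ w * Z + v) :=
  block_gen x (OK g h) a b m w Y Z

theorem s_eq_sum (b : ℕ) (hb : 2 ≤ b) (m u : ℕ) (hu : u < b ^ m) :
    s b u = ∑ k ∈ range m, u / b ^ k % b := by
  induction m generalizing u with
  | zero =>
    have : u = 0 := by
      rw [pow_zero] at hu; omega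
    subst this
    simp [s_zero]
  | succ m ih =>
    have hb0 : 0 < b := by omega
    have h1 : u / b < b ^ m := by
      rw [Nat.div_lt_iff_lt_mul hb0]
      rw [pow_succ] at hu
      exact hu
    have h2 : s b u = s b (u / b) + u % b := by
      conv_lhs => rw [(Nat.div_add_mod u b).symm]
      exact s_mul_add b _ _ hb (Nat.mod_lt _ hb0)
    rw [h2, ih _ h1, Finset.sum_range_succ', pow_zero, Nat.div_one]
    congr 1
    refine Finset.sum_congr rfl fun k _ => ?_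
    rw [Nat.div_div_eq_div_mul, pow_succ, mul_comm (b ^ k) b]

/-- The constant of a ternary factor. -/
theorem Q_pos {x : ℝ} (hx : 1 ≤ x) : 0 < 1 + x⁻¹ + x⁻¹ ^ 2 := by
  have : 0 < x := by linarith
  positivity

theorem W2_const (x : ℝ) (hx : 1 ≤ x) (m u : ℕ) (hu : u < 2 ^ m) :
    x ^ (s 2 u) = (1 + x) ^ m * W2 (fun _ => x) m u := by
  have h1 : (1 + x) ≠ 0 := by linarith
  unfold W2
  rw [Finset.prod_div_distrib, Finset.prod_const, Finset.card_range, Finset.prod_pow_eq_pow_sum,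
    ← s_eq_sum 2 le_rfl m u hu]
  field_simp

theorem W3_const (x : ℝ) (hx : 1 ≤ x) (w v : ℕ) (hv : v < 3 ^ w) :
    1 / x ^ (s 3 v) = (1 + x⁻¹ + x⁻¹ ^ 2) ^ w * W3 (fun _ => x) w v := by
  have h1 := (Q_pos hx).ne'
  unfold W3
  rw [Finset.prod_div_distrib, Finset.prod_const, Finset.card_range, Finset.prod_pow_eq_pow_sum,
    ← s_eq_sum 3 (by norm_num) w v hv, mul_div_cancel₀ _ (pow_ne_zero _ h1), inv_pow, one_div]

theorem W2_nonneg (p : ℕ → ℝ) (hp : ∀ k, 0 ≤ p k) (m u : ℕ) : 0 ≤ W2 p m u :=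
  Finset.prod_nonneg fun k _ => div_nonneg (pow_nonneg (hp k) _) (by linarith [hp k])

theorem W3_nonneg (q : ℕ → ℝ) (hq : ∀ k, 0 ≤ q k) (w v : ℕ) : 0 ≤ W3 q w v :=
  Finset.prod_nonneg fun k _ => by
    have := hq k
    positivity

theorem mix_nonneg (x : ℝ) (hx : 1 ≤ x) (n j k : ℕ) : 0 ≤ mix x n j k := by
  unfold mix; split_ifs <;> linarith

theorem mix_pos (x : ℝ) (hx : 1 ≤ x) (n j k : ℕ) : 0 < mix x n j k := by
  unfold mix; split_ifs <;> linarith

theorem mix_le (x : ℝ) (hx : 1 ≤ x) (n j k : ℕ) : mix x n j k ≤ x := by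
  unfold mix; split_ifs <;> linarith

theorem prod_mix (x : ℝ) (F : ℝ → ℝ) (m j : ℕ) (hj : j ≤ m) :
    ∏ k ∈ range m, F (mix x m j k) = F x ^ (m - j) * F 1 ^ j := by
  obtain ⟨n, rfl⟩ := Nat.exists_eq_add_of_le' hj
  rw [Finset.prod_range_add, Nat.add_sub_cancel]
  congr 1
  · rw [Finset.prod_congr rfl (g := fun _ => F x)]
    · simp
    · intro k hk
      rw [Finset.mem_range] at hk
      unfold mix
      rw [if_pos (by omega)]
  · rw [Finset.prod_congr rfl (g := fun _ => F 1)]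
    · simp
    · intro k hk
      unfold mix
      rw [if_neg (by omega)]

theorem W2_mix_le (x : ℝ) (hx : 1 ≤ x) (m j u : ℕ) (hj : j ≤ m) (hu : u < 2 ^ m) :
    (1 + x) ^ m * (2 / (1 + x)) ^ j * W2 (mix x m j) m u ≤ x ^ (s 2 u) := by
  have hx0 : (0 : ℝ) < 1 + x := by linarith
  have e1 : (1 + x) ^ m * (2 / (1 + x)) ^ j = (1 + x) ^ (m - j) * 2 ^ j := by
    have : (1 + x) ^ m = (1 + x) ^ (m - j) * (1 + x) ^ j := by
      rw [← pow_add]; congr 1; omega
    rw [this, div_pow]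
    field_simp
  have e2 : ∏ k ∈ range m, (1 + mix x m j k) = (1 + x) ^ (m - j) * 2 ^ j := by
    have := prod_mix x (fun t => 1 + t) m j hj
    rw [this]
    norm_num
  rw [e1, ← e2]
  unfold W2
  rw [← Finset.prod_mul_distrib, s_eq_sum 2 le_rfl m u hu, ← Finset.prod_pow_eq_pow_sum]
  refine Finset.prod_le_prod (fun k _ => ?_) fun k _ => ?_
  · have := mix_pos x hx m j k
    positivity
  · have h0 := mix_pos x hx m j k
    have h1 : (1 + mix x m j k) ≠ 0 := by positivity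
    rw [mul_div_cancel₀ _ h1]
    exact pow_le_pow_left₀ h0.le (mix_le x hx m j k) _

theorem W3_mix_le (x : ℝ) (hx : 1 ≤ x) (w w0 v : ℕ) (hw : w0 ≤ w) (hv : v < 3 ^ w) :
    (1 + x⁻¹ + x⁻¹ ^ 2) ^ w * (3 / (x ^ 2 * (1 + x⁻¹ + x⁻¹ ^ 2))) ^ w0 * W3 (mix x w w0) w v ≤
      1 / x ^ (s 3 v) := by
  have hx0 : (0 : ℝ) < x := by linarith
  set Q := 1 + x⁻¹ + x⁻¹ ^ 2 with hQ
  have hQ0 : 0 < Q := Q_pos hx
  have e1 : Q ^ w * (3 / (x ^ 2 * Q)) ^ w0 = Q ^ (w - w0) * 3 ^ w0 / x ^ (2 * w0) := by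
    have : Q ^ w = Q ^ (w - w0) * Q ^ w0 := by
      rw [← pow_add]; congr 1; omega
    rw [this, div_pow, mul_pow, pow_mul]
    field_simp
  have e2 : ∏ k ∈ range w, (1 + (mix x w w0 k)⁻¹ + (mix x w w0 k)⁻¹ ^ 2) = Q ^ (w - w0) * 3 ^ w0 := by
    have := prod_mix x (fun t => 1 + t⁻¹ + t⁻¹ ^ 2) w w0 hw
    rw [this]
    have h3 : (1 : ℝ) + 1⁻¹ + 1⁻¹ ^ 2 = 3 := by norm_num
    rw [h3]
  have e3 : ∏ k ∈ range w, (x / mix x w w0 k) ^ 2 = x ^ (2 * w0) := by
    have := prod_mix x (fun t => (x / t) ^ 2) w w0 hw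
    rw [this, div_self hx0.ne', div_one, pow_mul]
    norm_num
  rw [e1, ← e2, ← e3]
  unfold W3
  rw [s_eq_sum 3 (by norm_num) w v hv, ← Finset.prod_pow_eq_pow_sum, div_mul_eq_mul_div,
    ← Finset.prod_mul_distrib, div_le_div_iff₀
      (Finset.prod_pos fun k _ => by have := mix_pos x hx w w0 k; positivity)
      (Finset.prod_pos fun k _ => by positivity), one_mul, ← Finset.prod_mul_distrib]
  refine Finset.prod_le_prod (fun k _ => ?_) fun k _ => ?_
  · have := mix_pos x hx w w0 k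
    positivity
  · have h0 := mix_pos x hx w w0 k
    have h1 : (1 + (mix x w w0 k)⁻¹ + (mix x w w0 k)⁻¹ ^ 2) ≠ 0 := by positivity
    rw [mul_div_cancel₀ _ h1, ← mul_pow]
    have h2 : (mix x w w0 k)⁻¹ * x = x / mix x w w0 k := by rw [div_eq_mul_inv, mul_comm]
    rw [h2]
    refine pow_le_pow_right₀ ?_ ?_
    · rw [one_le_div h0]
      exact mix_le x hx w w0 k
    · have := Nat.mod_lt (v / 3 ^ k) (show 0 < 3 by norm_num)
      omega

theorem SOK_nonneg (x : ℝ) (hx : 1 ≤ x) (g h a b Y Z : ℕ) : 0 ≤ SOK x g h a b Y Z := by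
  unfold SOK
  refine Finset.sum_nonneg fun u _ => Finset.sum_nonneg fun v _ => ?_
  split_ifs
  · have : 0 < x := by linarith
    positivity
  · exact le_rfl

/-- An intersecting sub-cell forces the cell to intersect. -/
theorem ov_of_sub (g h a b Y Z u v : ℕ) (hu : u < 2 ^ a) (hv : v < 3 ^ b)
    (H : Ov g h (2 ^ a * Y + u) (3 ^ b * Z + v)) : Ov (g + a) (h + b) Y Z := by
  obtain ⟨h1, h2⟩ := H
  constructor
  · calc 2 ^ (g + a) * Y = 2 ^ g * (2 ^ a * Y) := by rw [pow_add]; ring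
      _ ≤ 2 ^ g * (2 ^ a * Y + u) := Nat.mul_le_mul_left _ (by omega)
      _ < 3 ^ h * (3 ^ b * Z + v + 1) := h1
      _ ≤ 3 ^ h * (3 ^ b * Z + 3 ^ b) := Nat.mul_le_mul_left _ (by omega)
      _ = 3 ^ (h + b) * (Z + 1) := by rw [pow_add]; ring
  · calc 3 ^ (h + b) * Z = 3 ^ h * (3 ^ b * Z) := by rw [pow_add]; ring
      _ ≤ 3 ^ h * (3 ^ b * Z + v) := Nat.mul_le_mul_left _ (by omega)
      _ < 2 ^ g * (2 ^ a * Y + u + 1) := h2
      _ ≤ 2 ^ g * (2 ^ a * Y + 2 ^ a) := Nat.mul_le_mul_left _ (by omega)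
      _ = 2 ^ (g + a) * (Y + 1) := by rw [pow_add]; ring

theorem SOv_eq_zero (x : ℝ) (g h a b Y Z : ℕ) (H : ¬ Ov (g + a) (h + b) Y Z) :
    SOv x g h a b Y Z = 0 := by
  unfold SOv
  refine Finset.sum_eq_zero fun u hu => Finset.sum_eq_zero fun v hv => ?_
  rw [if_neg]
  intro h'
  exact H (ov_of_sub g h a b Y Z u v (Finset.mem_range.mp hu) (Finset.mem_range.mp hv) h')

/-- A well overlapping cell has a well overlapping sub-cell. -/
theorem exists_ok (g h m w Y Z : ℕ) (h1 : 3 ^ h ≤ 2 ^ g) (h2 : 2 ^ g < 3 ^ (h + 1))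
    (h4 : 2 ^ (g + m) < 3 ^ (h + w + 1)) (hm : 4 ≤ m) (hOK : OK (g + m) (h + w) Y Z) :
    ∃ u < 2 ^ m, ∃ v < 3 ^ w, OK g h (2 ^ m * Y + u) (3 ^ w * Z + v) := by
  obtain ⟨k1, k2⟩ := hOK
  set G := 2 ^ g with hG
  set T := 3 ^ h with hT
  have hG0 : 0 < G := by positivity
  have hT0 : 0 < T := by positivity
  set M := 2 ^ m with hM
  set V := 3 ^ w with hV
  have hM16 : 16 ≤ M := by
    rw [hM]
    calc 16 = 2 ^ 4 := by norm_num
      _ ≤ 2 ^ m := Nat.pow_le_pow_right (by norm_num) hm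
  have eG : 2 ^ (g + m) = G * M := pow_add _ _ _
  have eT : 3 ^ (h + w) = T * V := pow_add _ _ _
  rw [eG, eT] at k1 k2
  have h2' : G < 3 * T := by rw [pow_succ] at h2; linarith
  have h4' : G * M < 3 * (T * V) := by
    rw [eG, pow_succ, eT] at h4; linarith
  have hGM : 16 * G ≤ G * M := by nlinarith
  -- the left end of the overlap
  set lo := max (G * M * Y) (T * V * Z) with hlo
  have lo1 : G * M * Y ≤ lo := le_max_left _ _
  have lo2 : T * V * Z ≤ lo := le_max_right _ _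
  -- the overlap is long
  have up1 : lo + 2 * T ≤ G * M * (Y + 1) := by
    have : 6 * lo + 12 * T ≤ 6 * (G * M * (Y + 1)) := by
      rcases le_total (G * M * Y) (T * V * Z) with hh | hh
      · have : lo = T * V * Z := max_eq_right hh
        rw [this]
        nlinarith
      · have : lo = G * M * Y := max_eq_left hh
        rw [this]
        nlinarith
    omega
  have up2 : lo + 2 * T ≤ T * V * (Z + 1) := by
    have : 6 * lo + 12 * T ≤ 6 * (T * V * (Z + 1)) := by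
      rcases le_total (G * M * Y) (T * V * Z) with hh | hh
      · have : lo = T * V * Z := max_eq_right hh
        rw [this]
        nlinarith
      · have : lo = G * M * Y := max_eq_left hh
        rw [this]
        nlinarith
    omega
  -- the ternary cell
  obtain ⟨Z1, hz1, hz2⟩ : ∃ Z1, lo ≤ T * Z1 ∧ T * Z1 < lo + T := by
    refine ⟨(lo + T - 1) / T, ?_, ?_⟩
    · have := Nat.div_add_mod (lo + T - 1) T
      have := Nat.mod_lt (lo + T - 1) hT0
      omega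
    · have := Nat.div_mul_le_self (lo + T - 1) T
      rw [mul_comm] at this
      omega
  -- the binary cell
  set Y1 := T * Z1 / G with hY1
  have hy1 : G * Y1 ≤ T * Z1 := by
    rw [hY1, mul_comm]; exact Nat.div_mul_le_self _ _
  have hy2 : T * Z1 < G * (Y1 + 1) := by
    have := Nat.div_add_mod (T * Z1) G
    have := Nat.mod_lt (T * Z1) hG0
    rw [← hY1] at *
    nlinarith
  have z1 : V * Z ≤ Z1 := by
    have : T * (V * Z) ≤ T * Z1 := by
      calc T * (V * Z) = T * V * Z := by ring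
        _ ≤ _ := lo2.trans hz1
    exact Nat.le_of_mul_le_mul_left this hT0
  have z2 : Z1 < V * Z + V := by
    have : T * Z1 < T * (V * Z + V) := by
      calc T * Z1 < lo + 2 * T := by omega
        _ ≤ T * V * (Z + 1) := up2
        _ = T * (V * Z + V) := by ring
    exact Nat.lt_of_mul_lt_mul_left this
  have y1 : M * Y ≤ Y1 := by
    have : G * (M * Y) < G * (Y1 + 1) := by
      calc G * (M * Y) = G * M * Y := by ring
        _ ≤ T * Z1 := lo1.trans hz1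
        _ < _ := hy2
    have := Nat.lt_of_mul_lt_mul_left this
    omega
  by_cases hcase : 6 * (T * Z1) + G ≤ 6 * (G * (Y1 + 1))
  · have y2 : Y1 < M * Y + M := by
      have : G * Y1 < G * (M * Y + M) := by
        calc G * Y1 ≤ T * Z1 := hy1
          _ < lo + 2 * T := by omega
          _ ≤ G * M * (Y + 1) := up1
          _ = G * (M * Y + M) := by ring
      exact Nat.lt_of_mul_lt_mul_left this
    refine ⟨Y1 - M * Y, by omega, Z1 - V * Z, by omega, ?_⟩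
    have e1 : M * Y + (Y1 - M * Y) = Y1 := by omega
    have e2 : V * Z + (Z1 - V * Z) = Z1 := by omega
    rw [e1, e2]
    refine ⟨?_, hcase⟩
    rw [← hG, ← hT]
    nlinarith
  · have hc2 : 6 * (G * (Y1 + 1)) < 6 * (T * Z1) + G := by omega
    have hc3 : 6 * (G * (Y1 + 1)) + G ≤ 6 * (T * (Z1 + 1)) := by nlinarith
    have y2 : Y1 + 1 < M * Y + M := by
      have : G * (Y1 + 1) < G * (M * Y + M) := by
        calc G * (Y1 + 1) < T * (Z1 + 1) := by nlinarith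
          _ = T * Z1 + T := by ring
          _ ≤ lo + 2 * T := by omega
          _ ≤ G * M * (Y + 1) := up1
          _ = G * (M * Y + M) := by ring
      exact Nat.lt_of_mul_lt_mul_left this
    refine ⟨Y1 + 1 - M * Y, by omega, Z1 - V * Z, by omega, ?_⟩
    have e1 : M * Y + (Y1 + 1 - M * Y) = Y1 + 1 := by omega
    have e2 : V * Z + (Z1 - V * Z) = Z1 := by omega
    rw [e1, e2]
    refine ⟨hc3, ?_⟩
    rw [← hG, ← hT]
    nlinarith

theorem block_bad (x : ℝ) (hx : 1 ≤ x) (g h a b m w : ℕ)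
    (h1 : 3 ^ (h + b) ≤ 2 ^ (g + a)) (h2 : 2 ^ (g + a) < 3 ^ (h + b + 1))
    (h3 : 3 ^ (h + b + w) ≤ 2 ^ (g + a + m)) (h4 : 2 ^ (g + a + m) < 3 ^ (h + b + w + 1))
    (hm : 4 ≤ m) (B : ℝ) (hB0 : 0 ≤ B)
    (hB : ∀ Y Z, OK (g + a) (h + b) Y Z → B ≤ SOK x g h a b Y Z) (Y Z : ℕ)
    (hOK : OK (g + a + m) (h + b + w) Y Z) :
    (1 / x ^ (2 * w)) * B ≤ SOK x g h (a + m) (b + w) Y Z := by
  have hx0 : 0 < x := by linarith
  obtain ⟨u, hu, v, hv, hok⟩ := exists_ok (g + a) (h + b) m w Y Z h1 h2 h4 hm hOK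
  rw [SOK_block]
  have hnn : ∀ u v, 0 ≤ x ^ (s 2 u) / x ^ (s 3 v) *
      SOK x g h a b (2 ^ m * Y + u) (3 ^ w * Z + v) := fun u v =>
    mul_nonneg (by positivity) (SOK_nonneg x hx _ _ _ _ _ _)
  have l1 := Finset.single_le_sum (f := fun u => ∑ v ∈ range (3 ^ w), x ^ (s 2 u) / x ^ (s 3 v) *
      SOK x g h a b (2 ^ m * Y + u) (3 ^ w * Z + v))
    (fun u _ => Finset.sum_nonneg fun v _ => hnn u v) (Finset.mem_range.mpr hu)
  have l2 := Finset.single_le_sum (f := fun v => x ^ (s 2 u) / x ^ (s 3 v) *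
      SOK x g h a b (2 ^ m * Y + u) (3 ^ w * Z + v))
    (fun v _ => hnn u v) (Finset.mem_range.mpr hv)
  refine le_trans ?_ (l2.trans l1)
  have h5 : 1 / x ^ (2 * w) ≤ x ^ (s 2 u) / x ^ (s 3 v) := by
    rw [div_le_div_iff₀ (by positivity) (by positivity), one_mul]
    have h6 : x ^ (s 3 v) ≤ x ^ (2 * w) :=
      pow_le_pow_right₀ hx (s_le 3 w v (by norm_num) hv)
    have h7 : (1 : ℝ) ≤ x ^ (s 2 u) := one_le_pow₀ hx
    nlinarith [pow_pos hx0 (2 * w)]
  exact mul_le_mul h5 (hB _ _ hok) hB0 (by positivity)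

end Pool.Agent.Helper59.EX
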