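import Pool.Agent.Helper59.EX.BlockA

/-!
# EX-5, second part: the block estimates, from the window estimates
-/

set_option autoImplicit false

namespace Pool.Agent.Helper59.EX

open Pool.Agent.Helper36.DC Pool.Agent.Helper47.EX Finset

/-- The statement window_upper of EX-4b. -/
def WindowUpper : Prop := ∀ (p q : ℕ → ℝ) (_ : Par p) (_ : Par q) (m w : ℕ) (θ τ : ℝ),
    ∑ u ∈ range (2 ^ m), ∑ v ∈ range (3 ^ w),
      (if |(u : ℝ) - θ * v - τ| ≤ 1 then W2 p m u * W3 q w v else 0)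
      ≤ 5 / 2 ^ m * EE p q m w θ

/-- The statement window_lower of EX-4c. -/
def WindowLower : Prop := ∀ (x : ℝ) (_ : 1 ≤ x) (_ : x ≤ 13 / 10) (m w j w0 L : ℕ) (θ τ E0 : ℝ)
    (_ : j ≤ m) (_ : w0 ≤ w) (_ : 2 ^ j ≤ 3 ^ w0) (_ : 3 ^ w0 < 3 * 2 ^ j)
    (_ : 3 ≤ w0) (_ : 6 ≤ m) (_ : 1 / 3 ≤ θ) (_ : θ ≤ 1)
    (_ : (2 : ℝ) ^ m / 3 ≤ θ * 3 ^ w) (_ : θ * 3 ^ w ≤ 2 ^ m)
    (_ : -(θ * 3 ^ w) + 2 ^ m / 6 - 1 / 2 ≤ τ) (_ : τ ≤ 5 / 6 * 2 ^ m)
    (_ : TT (mix x m j) (mix x w w0) m w j L θ ≤ 1 / 280)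
    (_ : EE (mix x m j) (mix x w w0) m w θ ≤ E0) (_ : 1 ≤ E0) (_ : 10000 * E0 ≤ L),
    1 / (280 * L * 2 ^ m) ≤ ∑ u ∈ range (2 ^ m), ∑ v ∈ range (3 ^ w),
      (if |(u : ℝ) - θ * v - τ| ≤ 1 / 2 then W2 (mix x m j) m u * W3 (mix x w w0) w v else 0)

theorem block_upper_of (WU : WindowUpper) (x : ℝ) (hx : 1 ≤ x) (hx1 : x ≤ 13 / 10)
    (g h a b m w : ℕ)
    (h1 : 3 ^ (h + b) ≤ 2 ^ (g + a)) (B : ℝ) (hB0 : 0 ≤ B)
    (hB : ∀ Y Z, SOv x g h a b Y Z ≤ B) (Y Z : ℕ) :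
    SOv x g h (a + m) (b + w) Y Z ≤
      5 * EE (fun _ => x) (fun _ => x) m w ((3 : ℝ) ^ (h + b) / 2 ^ (g + a))
        * ((1 + x) ^ m * (1 + x⁻¹ + x⁻¹ ^ 2) ^ w / 2 ^ m) * B := by
  have hx0 : 0 < x := by linarith
  set G : ℝ := 2 ^ (g + a) with hG
  set T : ℝ := 3 ^ (h + b) with hT
  have hG0 : 0 < G := by positivity
  have hT0 : 0 < T := by positivity
  set θ : ℝ := T / G with hθ
  have hθ1 : θ ≤ 1 := by
    rw [hθ, div_le_one hG0, hG, hT]
    exact_mod_cast h1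
  set τ : ℝ := θ * (3 ^ w * Z) - 2 ^ m * Y with hτ
  set Q := 1 + x⁻¹ + x⁻¹ ^ 2 with hQ
  have hQ0 : 0 < Q := Q_pos hx
  have hwin := WU (fun _ => x) (fun _ => x) (fun _ => ⟨hx, hx1⟩) (fun _ => ⟨hx, hx1⟩) m w θ τ
  rw [SOv_block]
  have key : ∀ u ∈ range (2 ^ m), ∀ v ∈ range (3 ^ w),
      x ^ (s 2 u) / x ^ (s 3 v) * SOv x g h a b (2 ^ m * Y + u) (3 ^ w * Z + v) ≤
      ((1 + x) ^ m * Q ^ w * B) * (if |(u : ℝ) - θ * v - τ| ≤ 1 then
        W2 (fun _ => x) m u * W3 (fun _ => x) w v else 0) := by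
    intro u hu v hv
    rw [Finset.mem_range] at hu hv
    by_cases hov : Ov (g + a) (h + b) (2 ^ m * Y + u) (3 ^ w * Z + v)
    · obtain ⟨o1, o2⟩ := hov
      have o1' : G * (2 ^ m * Y + u) < T * (3 ^ w * Z + v + 1) := by
        rw [hG, hT]; exact_mod_cast o1
      have o2' : T * (3 ^ w * Z + v) < G * (2 ^ m * Y + u + 1) := by
        rw [hG, hT]; exact_mod_cast o2
      have hTG : T = θ * G := by rw [hθ]; field_simp
      rw [hTG] at o1' o2'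
      have p1 : (2 ^ m * Y + u : ℝ) < θ * (3 ^ w * Z + v + 1) := by
        have : G * (2 ^ m * Y + u : ℝ) < G * (θ * (3 ^ w * Z + v + 1)) := by linarith
        exact lt_of_mul_lt_mul_left this hG0.le
      have p2 : θ * (3 ^ w * Z + v : ℝ) < 2 ^ m * Y + u + 1 := by
        have : G * (θ * (3 ^ w * Z + v : ℝ)) < G * (2 ^ m * Y + u + 1) := by linarith
        exact lt_of_mul_lt_mul_left this hG0.le
      have hab : |(u : ℝ) - θ * v - τ| ≤ 1 := by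
        rw [abs_le, hτ]
        constructor <;> linarith
      rw [if_pos hab]
      have e1 : x ^ (s 2 u) / x ^ (s 3 v) =
          (1 + x) ^ m * Q ^ w * (W2 (fun _ => x) m u * W3 (fun _ => x) w v) := by
        have := W3_const x hx w v hv
        rw [div_eq_mul_one_div, this, W2_const x hx m u hu]
        ring
      rw [e1]
      have hw : 0 ≤ (1 + x) ^ m * Q ^ w * (W2 (fun _ => x) m u * W3 (fun _ => x) w v) := by
        have := W2_nonneg (fun _ => x) (fun _ => hx0.le) m u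
        have := W3_nonneg (fun _ => x) (fun _ => hx0.le) w v
        positivity
      calc _ ≤ (1 + x) ^ m * Q ^ w * (W2 (fun _ => x) m u * W3 (fun _ => x) w v) * B :=
            mul_le_mul_of_nonneg_left (hB _ _) hw
        _ = _ := by ring
    · rw [SOv_eq_zero x g h a b _ _ hov, mul_zero]
      refine mul_nonneg (by positivity) ?_
      split_ifs
      · exact mul_nonneg (W2_nonneg _ (fun _ => hx0.le) m u) (W3_nonneg _ (fun _ => hx0.le) w v)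
      · exact le_rfl
  calc _ ≤ ∑ u ∈ range (2 ^ m), ∑ v ∈ range (3 ^ w),
        ((1 + x) ^ m * Q ^ w * B) * (if |(u : ℝ) - θ * v - τ| ≤ 1 then
        W2 (fun _ => x) m u * W3 (fun _ => x) w v else 0) :=
        Finset.sum_le_sum fun u hu => Finset.sum_le_sum fun v hv => key u hu v hv
    _ = ((1 + x) ^ m * Q ^ w * B) * ∑ u ∈ range (2 ^ m), ∑ v ∈ range (3 ^ w),
        (if |(u : ℝ) - θ * v - τ| ≤ 1 then W2 (fun _ => x) m u * W3 (fun _ => x) w v else 0) := by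
        rw [Finset.mul_sum]
        refine Finset.sum_congr rfl fun u _ => ?_
        rw [Finset.mul_sum]
    _ ≤ ((1 + x) ^ m * Q ^ w * B) * (5 / 2 ^ m * EE (fun _ => x) (fun _ => x) m w θ) :=
        mul_le_mul_of_nonneg_left hwin (by positivity)
    _ = _ := by ring

theorem block_lower_of (WL : WindowLower) (x : ℝ) (hx : 1 ≤ x) (hx1 : x ≤ 13 / 10)
    (g h a b m w j w0 L : ℕ) (E0 : ℝ)
    (h1 : 3 ^ (h + b) ≤ 2 ^ (g + a)) (h2 : 2 ^ (g + a) < 3 ^ (h + b + 1))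
    (h3 : 3 ^ (h + b + w) ≤ 2 ^ (g + a + m)) (h4 : 2 ^ (g + a + m) < 3 ^ (h + b + w + 1))
    (hj : j ≤ m) (hw0 : w0 ≤ w) (h5 : 2 ^ j ≤ 3 ^ w0) (h6 : 3 ^ w0 < 3 * 2 ^ j)
    (h7 : 3 ≤ w0) (hm : 6 ≤ m)
    (hT : TT (mix x m j) (mix x w w0) m w j L ((3 : ℝ) ^ (h + b) / 2 ^ (g + a)) ≤ 1 / 280)
    (hE : EE (mix x m j) (mix x w w0) m w ((3 : ℝ) ^ (h + b) / 2 ^ (g + a)) ≤ E0)
    (hE0 : 1 ≤ E0) (hL : 10000 * E0 ≤ L)
    (B : ℝ) (hB0 : 0 ≤ B)
    (hB : ∀ Y Z, OK (g + a) (h + b) Y Z → B ≤ SOK x g h a b Y Z) (Y Z : ℕ)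
    (hOK : OK (g + a + m) (h + b + w) Y Z) :
    (1 / (280 * L)) * ((2 / (1 + x)) ^ j * (3 / (x ^ 2 * (1 + x⁻¹ + x⁻¹ ^ 2))) ^ w0)
        * ((1 + x) ^ m * (1 + x⁻¹ + x⁻¹ ^ 2) ^ w / 2 ^ m) * B
      ≤ SOK x g h (a + m) (b + w) Y Z := by
  have hx0 : 0 < x := by linarith
  set G : ℝ := 2 ^ (g + a) with hG
  set T : ℝ := 3 ^ (h + b) with hTT
  have hG0 : 0 < G := by positivity
  have hT0 : 0 < T := by positivity
  set θ : ℝ := T / G with hθ
  have hTG : T = θ * G := by rw [hθ]; field_simp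
  have hθ0 : 0 < θ := by positivity
  have hθ1 : θ ≤ 1 := by
    rw [hθ, div_le_one hG0, hG, hTT]
    exact_mod_cast h1
  have hθ3 : 1 / 3 ≤ θ := by
    rw [hθ, div_le_div_iff₀ (by norm_num) hG0]
    have : G < 3 * T := by
      rw [hG, hTT]
      have h2' : 2 ^ (g + a) < 3 * 3 ^ (h + b) := by
        rw [pow_succ] at h2; linarith
      exact_mod_cast h2'
    linarith
  have hGm : (2 : ℝ) ^ (g + a + m) = G * 2 ^ m := by rw [pow_add]
  have hTw : (3 : ℝ) ^ (h + b + w) = T * 3 ^ w := by rw [pow_add]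
  have hθw1 : θ * 3 ^ w ≤ 2 ^ m := by
    have h3' : (3 : ℝ) ^ (h + b + w) ≤ 2 ^ (g + a + m) := by exact_mod_cast h3
    rw [hGm, hTw, hTG] at h3'
    have : G * (θ * 3 ^ w) ≤ G * 2 ^ m := by linarith
    exact le_of_mul_le_mul_left this hG0
  have hθw : (2 : ℝ) ^ m / 3 ≤ θ * 3 ^ w := by
    have h4' : (2 : ℝ) ^ (g + a + m) < 3 ^ (h + b + w + 1) := by exact_mod_cast h4
    rw [pow_succ (3 : ℝ) (h + b + w), hGm, hTw, hTG] at h4'
    have : G * 2 ^ m < G * (θ * 3 ^ w * 3) := by linarith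
    have := lt_of_mul_lt_mul_left this hG0.le
    linarith
  -- the parent
  set R : ℝ := θ * (3 ^ w * Z) - 2 ^ m * Y with hR
  obtain ⟨o1, o2⟩ := hOK
  have o1' : 6 * ((2 : ℝ) ^ (g + a + m) * Y) + 2 ^ (g + a + m) ≤
      6 * (3 ^ (h + b + w) * (Z + 1)) := by exact_mod_cast o1
  have o2' : 6 * ((3 : ℝ) ^ (h + b + w) * Z) + 2 ^ (g + a + m) ≤
      6 * (2 ^ (g + a + m) * (Y + 1)) := by exact_mod_cast o2
  rw [hGm, hTw, hTG] at o1' o2'
  have r1 : -(θ * 3 ^ w) + 2 ^ m / 6 ≤ R := by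
    have : G * (6 * (2 ^ m * Y) + 2 ^ m) ≤ G * (6 * (θ * 3 ^ w * (Z + 1))) := by linarith
    have := le_of_mul_le_mul_left this hG0
    rw [hR]
    linarith
  have r2 : R ≤ 5 / 6 * 2 ^ m := by
    have : G * (6 * (θ * 3 ^ w * Z) + 2 ^ m) ≤ G * (6 * (2 ^ m * (Y + 1))) := by linarith
    have := le_of_mul_le_mul_left this hG0
    rw [hR]
    linarith
  set τ : ℝ := R - (1 - θ) / 2 with hτ
  have hwin := WL x hx hx1 m w j w0 L θ τ E0 hj hw0 h5 h6 h7 hm hθ3 hθ1 hθw hθw1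
    (by rw [hτ]; linarith) (by rw [hτ]; linarith) hT hE hE0 hL
  set Q := 1 + x⁻¹ + x⁻¹ ^ 2 with hQ
  have hQ0 : 0 < Q := Q_pos hx
  rw [SOK_block]
  set K : ℝ := ((1 + x) ^ m * (2 / (1 + x)) ^ j) * (Q ^ w * (3 / (x ^ 2 * Q)) ^ w0) with hK
  have hK0 : 0 ≤ K := by rw [hK]; positivity
  have key : ∀ u ∈ range (2 ^ m), ∀ v ∈ range (3 ^ w),
      (K * B) * (if |(u : ℝ) - θ * v - τ| ≤ 1 / 2 then
        W2 (mix x m j) m u * W3 (mix x w w0) w v else 0) ≤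
      x ^ (s 2 u) / x ^ (s 3 v) * SOK x g h a b (2 ^ m * Y + u) (3 ^ w * Z + v) := by
    intro u hu v hv
    rw [Finset.mem_range] at hu hv
    split_ifs with hab
    · have w2n := W2_nonneg (mix x m j) (mix_nonneg x hx m j) m u
      have w3n := W3_nonneg (mix x w w0) (mix_nonneg x hx w w0) w v
      have w2 := W2_mix_le x hx m j u hj hu
      have w3 := W3_mix_le x hx w w0 v hw0 hv
      have hok : OK (g + a) (h + b) (2 ^ m * Y + u) (3 ^ w * Z + v) := by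
        rw [abs_le, hτ, hR] at hab
        have q1 : 6 * (G * (2 ^ m * Y + u)) + G ≤ 6 * (T * (3 ^ w * Z + v + 1)) := by
          rw [hTG]
          have : 6 * (2 ^ m * Y + u) + 1 ≤ 6 * (θ * (3 ^ w * Z + v + 1)) := by
            linarith [hab.2]
          have := mul_le_mul_of_nonneg_left this hG0.le
          linarith
        have q2 : 6 * (T * (3 ^ w * Z + v)) + G ≤ 6 * (G * (2 ^ m * Y + u + 1)) := by
          rw [hTG]
          have : 6 * (θ * (3 ^ w * Z + v)) + 1 ≤ 6 * (2 ^ m * Y + u + 1) := by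
            linarith [hab.1]
          have := mul_le_mul_of_nonneg_left this hG0.le
          linarith
        rw [hG, hTT] at q1 q2
        exact ⟨by exact_mod_cast q1, by exact_mod_cast q2⟩
      have e1 : K * (W2 (mix x m j) m u * W3 (mix x w w0) w v) ≤ x ^ (s 2 u) / x ^ (s 3 v) := by
        rw [div_eq_mul_one_div]
        calc K * (W2 (mix x m j) m u * W3 (mix x w w0) w v) =
            ((1 + x) ^ m * (2 / (1 + x)) ^ j * W2 (mix x m j) m u) *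
            (Q ^ w * (3 / (x ^ 2 * Q)) ^ w0 * W3 (mix x w w0) w v) := by rw [hK]; ring
          _ ≤ _ := mul_le_mul w2 w3 (by positivity) (by positivity)
      calc K * B * (W2 (mix x m j) m u * W3 (mix x w w0) w v) =
          K * (W2 (mix x m j) m u * W3 (mix x w w0) w v) * B := by ring
        _ ≤ _ := mul_le_mul e1 (hB _ _ hok) hB0 (by positivity)
    · rw [mul_zero]
      exact mul_nonneg (by positivity) (SOK_nonneg x hx _ _ _ _ _ _)
  calc _ = (K * B) * (1 / (280 * L * 2 ^ m)) := by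
        rw [hK]
        rw [one_div, one_div, mul_inv (280 * (L : ℝ)) ((2 : ℝ) ^ m)]
        ring
    _ ≤ (K * B) * ∑ u ∈ range (2 ^ m), ∑ v ∈ range (3 ^ w),
        (if |(u : ℝ) - θ * v - τ| ≤ 1 / 2 then
        W2 (mix x m j) m u * W3 (mix x w w0) w v else 0) :=
        mul_le_mul_of_nonneg_left hwin (mul_nonneg hK0 hB0)
    _ = ∑ u ∈ range (2 ^ m), ∑ v ∈ range (3 ^ w), (K * B) *
        (if |(u : ℝ) - θ * v - τ| ≤ 1 / 2 then
        W2 (mix x m j) m u * W3 (mix x w w0) w v else 0) := by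
        rw [Finset.mul_sum]
        refine Finset.sum_congr rfl fun u _ => ?_
        rw [Finset.mul_sum]
    _ ≤ _ := Finset.sum_le_sum fun u hu => Finset.sum_le_sum fun v hv => key u hu v hv

end Pool.Agent.Helper59.EX
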